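import Pool.Agent.helper82.T5.SpecS

set_option autoImplicit false

namespace Pool.Agent.T5

open Finset NumberField Pool.Agent.helper3.FT Pool.Agent.helper47.RA

theorem SQ2_add {R : Type} [CommRing R] [Nontrivial R] (h0 : ∀ x y : R, ¬ IsUnit x → ¬ IsUnit y → x * y = 0)
    {x y : R} (hx : ¬ IsUnit x) (hy : ¬ IsUnit y) : ¬ IsUnit (x + y) := by
  intro h
  have h1 : (x + y) * (x + y) = 0 := by
    have h2 := h0 x x hx hx
    have h3 := h0 x y hx hy
    have h4 := h0 y y hy hy
    linear_combination h2 + 2 * h3 + h4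
  have h2 := h.mul h
  rw [h1] at h2
  exact not_isUnit_zero h2

theorem SQ2_neg {R : Type} [CommRing R] {x : R} (hx : ¬ IsUnit x) : ¬ IsUnit (-x) := by
  intro h
  exact hx (by simpa using h.neg)

theorem SQ2_mulL {R : Type} [CommRing R] {x : R} (y : R) (hx : ¬ IsUnit x) : ¬ IsUnit (x * y) :=
  fun h => hx (isUnit_of_mul_isUnit_left h)

theorem SQ2_mulR {R : Type} [CommRing R] {x : R} (y : R) (hx : ¬ IsUnit x) : ¬ IsUnit (y * x) :=
  fun h => hx (isUnit_of_mul_isUnit_right h)

theorem SQ2_eqadd {R : Type} [CommRing R] [Nontrivial R] (h0 : ∀ x y : R, ¬ IsUnit x → ¬ IsUnit y → x * y = 0)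
    {x y z : R} (e : x = y + z) (hx : ¬ IsUnit x) (hy : ¬ IsUnit y) : ¬ IsUnit z := by
  have : z = x + (-y) := by rw [e]; ring
  rw [this]
  exact SQ2_add h0 hx (SQ2_neg hy)

/-- the abstract count -/
theorem SQ2_abs {R : Type} [CommRing R] [Fintype R] [Nontrivial R] [DecidableEq R] (q : ℕ) (N : Finset R)
    (hN : ∀ x : R, x ∈ N ↔ ¬ IsUnit x) (hNc : N.card = q) (hR : Fintype.card R = q ^ 2)
    (h0 : ∀ x y : R, ¬ IsUnit x → ¬ IsUnit y → x * y = 0) (h2 : IsUnit (2 : R)) (n k : R) (hn : IsUnit n)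
    (h1 : {x : R × R × R | IsUnit (Zp k x.1 x.2.2) ∧ IsUnit (Lp n k x.1 x.2.1 x.2.2) ∧
      Pp n k x.1 x.2.1 x.2.2 = 0}.ncard ≤ Fintype.card R ^ 2) :
    {x : R × R × R | Pp n k x.1 x.2.1 x.2.2 = 0}.ncard ≤ 4 * q ^ 4 := by
  have h4 : IsUnit (4 : R) := by
    have : (4 : R) = 2 * 2 := by norm_num
    rw [this]; exact h2.mul h2
  by_cases hk : IsUnit k
  · obtain ⟨k', hk'⟩ := hk.exists_right_inv
    have hsub : {x : R × R × R | Pp n k x.1 x.2.1 x.2.2 = 0} ⊆
        {x : R × R × R | IsUnit (Zp k x.1 x.2.2) ∧ IsUnit (Lp n k x.1 x.2.1 x.2.2) ∧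
          Pp n k x.1 x.2.1 x.2.2 = 0} ∪ (((N ×ˢ ((univ : Finset R) ×ˢ N)) : Finset (R × R × R)) : Set (R × R × R)) ∪
        ((((univ : Finset R) ×ˢ (N ×ˢ N)).image (fun y : R × R × R => (y.1, y.2.1, y.2.2 - y.1 ^ 2 * k')) : Finset (R × R × R)) : Set (R × R × R)) := by
      rintro ⟨m, g, r⟩ hx
      simp only [Set.mem_setOf_eq] at hx
      by_cases hu : IsUnit (Zp k m r) ∧ IsUnit (Lp n k m g r)
      · left; left
        exact ⟨hu.1, hu.2, hx⟩
      have hid : k * Ap n k m g r = n ^ 2 * g * Zp k m r - m * Lp n k m g r := by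
        simp only [Ap, Lp, Zp]; ring
      have hLp : Lp n k m g r = n ^ 2 * m * g + Zp k m r * k ^ 2 := rfl
      have hP : Ap n k m g r ^ 2 = 4 * Zp k m r ^ 2 * Lp n k m g r := by
        have := hx
        simp only [Pp] at this
        exact sub_eq_zero.mp this
      have hZ : ¬ IsUnit (Zp k m r) := by
        intro hZ
        have hL : ¬ IsUnit (Lp n k m g r) := fun h => hu ⟨hZ, h⟩
        have hA : ¬ IsUnit (Ap n k m g r) := by
          intro hA
          have := hA.pow 2
          rw [hP] at this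
          exact hL (isUnit_of_mul_isUnit_right this)
        have hg : ¬ IsUnit g := by
          have e : n ^ 2 * g * Zp k m r = k * Ap n k m g r + m * Lp n k m g r := by rw [hid]; ring
          have h3 : ¬ IsUnit (n ^ 2 * g * Zp k m r) := by
            rw [e]
            exact SQ2_add h0 (SQ2_mulR k hA) (SQ2_mulR m hL)
          intro hg
          exact h3 (((hn.pow 2).mul hg).mul hZ)
        have h5 : ¬ IsUnit (Zp k m r * k ^ 2) :=
          SQ2_eqadd h0 hLp hL (SQ2_mulR _ hg)
        exact h5 (hZ.mul (hk.pow 2))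
      have hZ2 : Zp k m r ^ 2 = 0 := by rw [sq]; exact h0 _ _ hZ hZ
      have hA : ¬ IsUnit (Ap n k m g r) := by
        intro hA
        have := hA.pow 2
        rw [hP, hZ2] at this
        simp at this
      have hmL : ¬ IsUnit (m * Lp n k m g r) := by
        have e : m * Lp n k m g r = n ^ 2 * g * Zp k m r + (-(k * Ap n k m g r)) := by rw [hid]; ring
        rw [e]
        exact SQ2_add h0 (SQ2_mulR _ hZ) (SQ2_neg (SQ2_mulR _ hA))
      by_cases hm : IsUnit m
      · right
        have hL : ¬ IsUnit (Lp n k m g r) := fun h => hmL (hm.mul h)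
        have hg : ¬ IsUnit g := by
          have e : Lp n k m g r = Zp k m r * k ^ 2 + n ^ 2 * m * g := by rw [hLp]; ring
          have h6 : ¬ IsUnit (n ^ 2 * m * g) := SQ2_eqadd h0 e hL (SQ2_mulL _ hZ)
          intro hg
          exact h6 (((hn.pow 2).mul hm).mul hg)
        have hs : ¬ IsUnit (Zp k m r * k') := SQ2_mulL _ hZ
        rw [Finset.mem_coe, Finset.mem_image]
        refine ⟨(m, g, Zp k m r * k'), ?_, ?_⟩
        · simp only [Finset.mem_product, Finset.mem_univ, true_and]
          exact ⟨(hN g).2 hg, (hN _).2 hs⟩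
        · simp only [Prod.mk.injEq, true_and]
          simp only [Zp]
          linear_combination r * hk'
      · left; right
        have hr : ¬ IsUnit r := by
          have h6 : ¬ IsUnit (k * r) := by
            refine SQ2_eqadd h0 (x := Zp k m r) (y := m ^ 2) rfl hZ ?_
            rw [sq]; exact SQ2_mulL _ hm
          intro hr
          exact h6 (hk.mul hr)
        simp only [Finset.coe_product, Set.mem_prod, Finset.mem_coe, Finset.coe_univ, Set.mem_univ, true_and]
        exact ⟨(hN m).2 hm, (hN r).2 hr⟩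
    refine (Set.ncard_le_ncard hsub (Set.toFinite _)).trans ?_
    refine (Set.ncard_union_le _ _).trans ?_
    refine (Nat.add_le_add_right (Set.ncard_union_le _ _) _).trans ?_
    have c2 : ((((N ×ˢ ((univ : Finset R) ×ˢ N)) : Finset (R × R × R)) : Set (R × R × R))).ncard = q ^ 4 := by
      rw [Set.ncard_coe_finset, Finset.card_product, Finset.card_product, Finset.card_univ, hNc, hR]; ring
    have c3 : (((((univ : Finset R) ×ˢ (N ×ˢ N)).image (fun y : R × R × R => (y.1, y.2.1, y.2.2 - y.1 ^ 2 * k')) : Finset (R × R × R)) : Set (R × R × R))).ncard ≤ q ^ 4 := by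
      rw [Set.ncard_coe_finset]
      refine Finset.card_image_le.trans ?_
      rw [Finset.card_product, Finset.card_product, Finset.card_univ, hNc, hR]
      apply le_of_eq; ring
    rw [hR] at h1
    have e4 : (q ^ 2) ^ 2 = q ^ 4 := by ring
    rw [e4] at h1
    rw [c2]
    omega
  · have hsub : {x : R × R × R | Pp n k x.1 x.2.1 x.2.2 = 0} ⊆
        {x : R × R × R | IsUnit (Zp k x.1 x.2.2) ∧ IsUnit (Lp n k x.1 x.2.1 x.2.2) ∧
          Pp n k x.1 x.2.1 x.2.2 = 0} ∪ (((N ×ˢ (N ×ˢ (univ : Finset R))) : Finset (R × R × R)) : Set (R × R × R)) ∪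
          (((N ×ˢ ((univ : Finset R) ×ˢ N)) : Finset (R × R × R)) : Set (R × R × R)) ∪
          ((((univ : Finset R) ×ˢ (({0} : Finset R) ×ˢ (univ : Finset R))) : Finset (R × R × R)) : Set (R × R × R)) := by
      rintro ⟨m, g, r⟩ hx
      simp only [Set.mem_setOf_eq] at hx
      by_cases hu : IsUnit (Zp k m r) ∧ IsUnit (Lp n k m g r)
      · left; left; left
        exact ⟨hu.1, hu.2, hx⟩
      have hP : Ap n k m g r ^ 2 = 4 * Zp k m r ^ 2 * Lp n k m g r := by
        have := hx
        simp only [Pp] at this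
        exact sub_eq_zero.mp this
      by_cases hm : IsUnit m
      · right
        have hk2 : k ^ 2 = 0 := by rw [sq]; exact h0 _ _ hk hk
        have hZ : IsUnit (Zp k m r) := by
          by_contra hZ
          have h6 : ¬ IsUnit (m ^ 2) := by
            refine SQ2_eqadd h0 (x := Zp k m r) (y := k * r) ?_ hZ (SQ2_mulL _ hk)
            simp only [Zp]; ring
          exact h6 (hm.pow 2)
        have hL : ¬ IsUnit (Lp n k m g r) := fun h => hu ⟨hZ, h⟩
        have hL2 : Lp n k m g r = n ^ 2 * m * g := by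
          simp only [Lp]; rw [hk2]; ring
        have hg : ¬ IsUnit g := by
          intro hg
          apply hL
          rw [hL2]
          exact ((hn.pow 2).mul hm).mul hg
        have hA : Ap n k m g r ^ 2 = 0 := by
          rw [sq]
          have : ¬ IsUnit (Ap n k m g r) := by
            have e : Ap n k m g r = n ^ 2 * g * r + -(m * k * Zp k m r) := by simp only [Ap]; ring
            rw [e]
            exact SQ2_add h0 (SQ2_mulL _ (SQ2_mulR _ hg)) (SQ2_neg (SQ2_mulL _ (SQ2_mulR _ hk)))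
          exact h0 _ _ this this
        have h7 : (4 * Zp k m r ^ 2 * (n ^ 2 * m)) * g = 0 := by
          rw [hA, hL2] at hP
          rw [hP]; ring
        have h8 : IsUnit (4 * Zp k m r ^ 2 * (n ^ 2 * m)) :=
          ((h4.mul (hZ.pow 2)).mul ((hn.pow 2).mul hm))
        have h9 : g = 0 := (h8.mul_right_eq_zero).1 h7
        simp only [Finset.coe_product, Set.mem_prod, Finset.mem_coe, Finset.coe_univ, Set.mem_univ, true_and,
          Finset.coe_singleton, Set.mem_singleton_iff, and_true]
        exact h9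
      · left
        have hZ2 : Zp k m r ^ 2 = 0 := by
          have : ¬ IsUnit (Zp k m r) := by
            have e : Zp k m r = m * m + k * r := by simp only [Zp]; ring
            rw [e]
            exact SQ2_add h0 (SQ2_mulL _ hm) (SQ2_mulL _ hk)
          rw [sq]; exact h0 _ _ this this
        have hmk : m * k = 0 := h0 _ _ hm hk
        have hA : Ap n k m g r = n ^ 2 * g * r := by
          simp only [Ap]; rw [hmk]; ring
        have h7 : ¬ IsUnit (n ^ 2 * g * r) := by
          intro h
          have h8 := h.pow 2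
          rw [← hA, hP, hZ2] at h8
          simp at h8
        by_cases hg : IsUnit g
        · right
          have hr : ¬ IsUnit r := fun hr => h7 (((hn.pow 2).mul hg).mul hr)
          simp only [Finset.coe_product, Set.mem_prod, Finset.mem_coe, Finset.coe_univ, Set.mem_univ, true_and]
          exact ⟨(hN m).2 hm, (hN r).2 hr⟩
        · left; right
          simp only [Finset.coe_product, Set.mem_prod, Finset.mem_coe, Finset.coe_univ, Set.mem_univ, and_true]
          exact ⟨(hN m).2 hm, (hN g).2 hg⟩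
    refine (Set.ncard_le_ncard hsub (Set.toFinite _)).trans ?_
    refine (Set.ncard_union_le _ _).trans ?_
    refine (Nat.add_le_add_right (Set.ncard_union_le _ _) _).trans ?_
    refine (Nat.add_le_add_right (Nat.add_le_add_right (Set.ncard_union_le _ _) _) _).trans ?_
    have c1 : ((((N ×ˢ (N ×ˢ (univ : Finset R))) : Finset (R × R × R)) : Set (R × R × R))).ncard = q ^ 4 := by
      rw [Set.ncard_coe_finset, Finset.card_product, Finset.card_product, Finset.card_univ, hNc, hR]; ring
    have c2 : ((((N ×ˢ ((univ : Finset R) ×ˢ N)) : Finset (R × R × R)) : Set (R × R × R))).ncard = q ^ 4 := by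
      rw [Set.ncard_coe_finset, Finset.card_product, Finset.card_product, Finset.card_univ, hNc, hR]; ring
    have c3 : (((((univ : Finset R) ×ˢ (({0} : Finset R) ×ˢ (univ : Finset R))) : Finset (R × R × R)) : Set (R × R × R))).ncard = q ^ 4 := by
      rw [Set.ncard_coe_finset, Finset.card_product, Finset.card_product, Finset.card_univ, Finset.card_singleton, hR]; ring
    rw [hR] at h1
    have e4 : (q ^ 2) ^ 2 = q ^ 4 := by ring
    rw [e4] at h1
    rw [c1, c2, c3]
    omega

theorem SQ2 (hSQ1 : SQ1_stmt) : SQ2_stmt := by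
  classical
  intro p hp hp2 n k hn
  haveI : NeZero (p ^ 2) := ⟨pow_ne_zero _ hp.ne_zero⟩
  haveI : Fact (1 < p ^ 2) := ⟨Nat.one_lt_pow (by norm_num) hp.one_lt⟩
  haveI : Nontrivial (ZMod (p ^ 2)) := inferInstance
  have hdvd : ∀ x : ZMod (p ^ 2), ¬ IsUnit x → ∃ y : ZMod (p ^ 2), x = (p : ZMod (p ^ 2)) * y := by
    intro x hx
    have h1 : ¬ Nat.Coprime x.val (p ^ 2) := by
      intro h
      apply hx
      have := (ZMod.isUnit_iff_coprime x.val (p ^ 2)).2 h
      rwa [ZMod.natCast_zmod_val] at this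
    have h2 : p ∣ x.val := by
      by_contra h3
      apply h1
      exact ((Nat.Prime.coprime_iff_not_dvd hp).2 h3).symm.pow_right 2
    obtain ⟨c, hc⟩ := h2
    refine ⟨(c : ZMod (p ^ 2)), ?_⟩
    have h4 : ((x.val : ℕ) : ZMod (p ^ 2)) = x := ZMod.natCast_zmod_val x
    rw [← h4, hc]; push_cast; ring
  have hpp : (p : ZMod (p ^ 2)) * (p : ZMod (p ^ 2)) = 0 := by
    have : ((p ^ 2 : ℕ) : ZMod (p ^ 2)) = 0 := ZMod.natCast_self _
    have h2 : (p : ZMod (p ^ 2)) * (p : ZMod (p ^ 2)) = ((p ^ 2 : ℕ) : ZMod (p ^ 2)) := by push_cast; ring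
    rw [h2, this]
  have h0 : ∀ x y : ZMod (p ^ 2), ¬ IsUnit x → ¬ IsUnit y → x * y = 0 := by
    intro x y hx hy
    obtain ⟨a, ha⟩ := hdvd x hx
    obtain ⟨b, hb⟩ := hdvd y hy
    rw [ha, hb]
    linear_combination a * b * hpp
  have h2 : IsUnit (2 : ZMod (p ^ 2)) := by
    have := (ZMod.isUnit_iff_coprime 2 (p ^ 2)).2 (((Nat.coprime_primes Nat.prime_two hp).2 (Ne.symm hp2)).pow_right 2)
    simpa using this
  have hcard : Fintype.card (ZMod (p ^ 2)) = p ^ 2 := ZMod.card _
  have hNc : ((univ : Finset (ZMod (p ^ 2))).filter (fun x => ¬ IsUnit x)).card = p := by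
    have h3 := Finset.card_filter_add_card_filter_not (s := (univ : Finset (ZMod (p ^ 2)))) (fun x => IsUnit x)
    have h4 : ((univ : Finset (ZMod (p ^ 2))).filter (fun x => IsUnit x)).card = Nat.totient (p ^ 2) := by
      rw [← ZMod.card_units_eq_totient (p ^ 2)]
      symm
      rw [← Finset.card_univ]
      refine Finset.card_bij (fun u _ => (u : ZMod (p ^ 2))) ?_ ?_ ?_
      · intro u _; simp
      · intro u _ v _ h; exact Units.ext h
      · intro x hx
        obtain ⟨u, hu⟩ := (Finset.mem_filter.1 hx).2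
        exact ⟨u, Finset.mem_univ _, hu⟩
    rw [h4, Finset.card_univ, hcard, Nat.totient_prime_pow hp (by norm_num)] at h3
    have h5 : p ^ (2 - 1) * (p - 1) + p = p ^ 2 := by
      have := hp.one_lt
      obtain ⟨c, rfl⟩ : ∃ c, p = c + 1 := ⟨p - 1, by omega⟩
      simp; ring
    omega
  exact SQ2_abs p _ (fun x => by simp) hNc hcard h0 h2 n k hn (hSQ1 (ZMod (p ^ 2)) n k h2 hn)

end Pool.Agent.T5
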